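import Pool.Agent.H88.HW.Mass

/-!
# Finite speed Howitt-Warren flows have no Tracy-Widom fluctuations at the scale of unit intervals

For every drift `β`, every nonzero finite measure `ν` on `(0,1)` with
`∫ ν(dq) / (q (1-q)) < ∞` and every `x`, the random variable
`(-log K_{0,t}(0, [tx, tx+1]) - m(t)) / s(t)` does not converge in distribution to a real random
variable, whatever the deterministic centering `m` and the scaling `s` are.
The reason is that `K_{0,t}(0, [tx, tx+1]) = 0` with probability bounded away from `0`.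
-/

open MeasureTheory ProbabilityTheory Filter Set
open scoped ENNReal NNReal Topology
open Pool.Agent.H88.HW

namespace Pool.Agent.Results.MP_b213bc_pr.FiniteSpeedFlows

/-- Sanity check: the rescaled variable is measurable (so the failure of convergence is not for
reasons of measurability). -/
theorem measurable_rescaled {Ω : Type*} [MeasurableSpace Ω] {P : Measure Ω}
    {K : ℝ → ℝ → Ω → ℝ → Measure ℝ} (hK : IsStochasticFlowOfKernels P K) (x : ℝ)
    (m s : ℝ≥0 → ℝ) (t : ℝ≥0) : Measurable (rescaled K x m s t) := by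
  have h1 : Measurable fun ω : Ω => K 0 t ω 0 :=
    (hK.measurable 0 t t.2).comp (measurable_id.prodMk measurable_const)
  have h2 : Measurable fun ω : Ω => K 0 t ω 0 (Icc (t * x) (t * x + 1)) :=
    (Measure.measurable_coe measurableSet_Icc).comp h1
  have h3 : Measurable fun ω : Ω => -ENNReal.log (K 0 t ω 0 (Icc (t * x) (t * x + 1))) :=
    (ENNReal.measurable_log.comp h2).neg
  have h4 : Measurable fun y : EReal => (y - (m t : EReal)) / (s t : EReal) := by
    have e : ∀ y : EReal, (y - (m t : EReal)) / (s t : EReal) =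
        (y + ((-(m t) : ℝ) : EReal)) * (((s t)⁻¹ : ℝ) : EReal) := by
      intro y
      rw [EReal.div_eq_inv_mul, mul_comm, sub_eq_add_neg, EReal.coe_neg, EReal.coe_inv]
    simp only [e]
    apply Measurable.mul_const
    exact measurable_id.add_const _
  exact h4.comp h3

/-- Sanity check: the class of measures considered is not empty; it contains the unit mass at
`1/2`. -/
theorem dirac_half_ok : IsFiniteMeasure (Measure.dirac (1 / 2 : ℝ)) ∧
    0 < Measure.dirac (1 / 2 : ℝ) (Ioo (0 : ℝ) 1) ∧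
    Measure.dirac (1 / 2 : ℝ) (Ioo (0 : ℝ) 1)ᶜ = 0 ∧
    Integrable (fun q : ℝ => 1 / (q * (1 - q))) (Measure.dirac (1 / 2 : ℝ)) := by
  refine ⟨inferInstance, ?_, ?_, ?_⟩
  · rw [Measure.dirac_apply' _ measurableSet_Ioo, indicator_of_mem]
    · simp
    · constructor <;> norm_num
  · rw [Measure.dirac_apply' _ measurableSet_Ioo.compl, indicator_of_notMem]
    intro h
    apply h
    constructor <;> norm_num
  · exact integrable_dirac enorm_lt_top

/-- The mass of a unit interval vanishes with probability bounded below, uniformly in the time and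
in the position of the interval. -/
theorem mass_vanishes (β : ℝ) (ν : Measure ℝ) [IsFiniteMeasure ν] (hν₁ : ν (Ioo 0 1)ᶜ = 0)
    (hν₂ : Integrable (fun q : ℝ => 1 / (q * (1 - q))) ν) :
    ∃ c₀ : ℝ≥0∞, 0 < c₀ ∧ ∀ {Ω : Type*} [MeasurableSpace Ω] (P : Measure Ω)
      [IsProbabilityMeasure P] (K : ℝ → ℝ → Ω → ℝ → Measure ℝ), IsHowittWarrenFlow β ν P K →
      ∀ t : ℝ≥0, 1 ≤ t → ∀ a : ℝ, c₀ ≤ P {ω | K 0 t ω 0 (Icc a (a + 1)) = 0} := by
  have hν : FiniteSpeed ν := ⟨hν₁, hν₂⟩
  refine ⟨ENNReal.ofReal (SolvesHW.cst (spd ν)), ?_, ?_⟩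
  · exact ENNReal.ofReal_pos.2 (SolvesHW.cst_pos hν.spd_nonneg)
  · intro Ω _ P _ K hK t ht a
    exact mass_zero hν hK ht a

/-- For every drift `β`, every nonzero finite measure `ν` on `(0,1)` with
`∫ ν(dq)/(q(1-q)) < ∞`, every Howitt-Warren flow `K` with drift `β` and characteristic measure `ν`,
every `x`, and all deterministic centerings `m(t)` and scalings `s(t) ≠ 0`, the variables
`(-log K_{0,t}(0, [tx, tx+1]) - m(t)) / s(t)` do not converge in distribution, as `t → ∞`, to a real
random variable `χ`. -/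
theorem result (β : ℝ) (ν : Measure ℝ) [IsFiniteMeasure ν] (_hν₀ : 0 < ν (Ioo 0 1))
    (hν₁ : ν (Ioo 0 1)ᶜ = 0) (hν₂ : Integrable (fun q : ℝ => 1 / (q * (1 - q))) ν)
    {Ω : Type*} [MeasurableSpace Ω] (P : Measure Ω) [IsProbabilityMeasure P]
    (K : ℝ → ℝ → Ω → ℝ → Measure ℝ) (hK : IsHowittWarrenFlow β ν P K)
    (x : ℝ) (m s : ℝ≥0 → ℝ) (hs : ∀ t, 0 < t → s t ≠ 0)
    {Ω' : Type*} [MeasurableSpace Ω'] (P' : Measure Ω') [IsProbabilityMeasure P'] (χ : Ω' → ℝ) :
    ¬ TendstoInDistribution (fun (t : ℝ≥0) => rescaled K x m s t) atTop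
      (fun ω' => (χ ω' : EReal)) (fun _ => P) P' := by
  intro hconv
  obtain ⟨c₀, hc₀, hmass⟩ := mass_vanishes β ν hν₁ hν₂
  have hclosed : IsClosed ({⊤, ⊥} : Set EReal) := by
    exact (Set.toFinite _).isClosed
  have hlim := ProbabilityMeasure.limsup_measure_closed_le_of_tendsto hconv.tendsto hclosed
  have hzero : (P'.map fun ω' => (χ ω' : EReal)) ({⊤, ⊥} : Set EReal) = 0 := by
    rw [Measure.map_apply_of_aemeasurable hconv.aemeasurable_limit hclosed.measurableSet]
    have : (fun ω' => (χ ω' : EReal)) ⁻¹' ({⊤, ⊥} : Set EReal) = ∅ := by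
      ext ω'
      simp
    rw [this, measure_empty]
  have hlow : ∀ t : ℝ≥0, 1 ≤ t → c₀ ≤ (P.map (rescaled K x m s t)) ({⊤, ⊥} : Set EReal) := by
    intro t ht
    rw [Measure.map_apply (measurable_rescaled hK.toIsStochasticFlowOfKernels x m s t)
      hclosed.measurableSet]
    refine (hmass P K hK t ht (t * x)).trans (measure_mono fun ω hω => ?_)
    have h0 : K 0 t ω 0 (Icc (t * x) (t * x + 1)) = 0 := hω
    have ht0 : (0 : ℝ≥0) < t := lt_of_lt_of_le one_pos ht
    have hs0 := hs t ht0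
    simp only [mem_preimage, mem_insert_iff, mem_singleton_iff]
    unfold rescaled
    rw [h0, ENNReal.log_zero, EReal.neg_bot, EReal.top_sub_coe]
    rcases lt_or_gt_of_ne hs0 with hneg | hpos
    · right
      exact EReal.top_div_of_neg_ne_bot (by exact_mod_cast hneg) (EReal.coe_ne_bot _)
    · left
      exact EReal.top_div_of_pos_ne_top (by exact_mod_cast hpos) (EReal.coe_ne_top _)
  have hge : c₀ ≤ limsup (fun t : ℝ≥0 => (P.map (rescaled K x m s t)) ({⊤, ⊥} : Set EReal))
      atTop := by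
    refine le_limsup_of_frequently_le ?_ (by isBoundedDefault)
    exact (eventually_atTop.2 ⟨1, fun t ht => hlow t ht⟩).frequently
  have hfin : c₀ ≤ 0 := by
    rw [← hzero]
    exact hge.trans hlim
  exact absurd hfin (not_le.2 hc₀)

/-- The case posed in the question: centering `c t` and scaling `σ t^{1/3}`. -/
theorem posed (β : ℝ) (ν : Measure ℝ) [IsFiniteMeasure ν] (hν₀ : 0 < ν (Ioo 0 1))
    (hν₁ : ν (Ioo 0 1)ᶜ = 0) (hν₂ : Integrable (fun q : ℝ => 1 / (q * (1 - q))) ν)
    {Ω : Type*} [MeasurableSpace Ω] (P : Measure Ω) [IsProbabilityMeasure P]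
    (K : ℝ → ℝ → Ω → ℝ → Measure ℝ) (hK : IsHowittWarrenFlow β ν P K)
    (x c σ : ℝ) (hσ : σ ≠ 0)
    {Ω' : Type*} [MeasurableSpace Ω'] (P' : Measure Ω') [IsProbabilityMeasure P'] (χ : Ω' → ℝ) :
    ¬ TendstoInDistribution
      (fun (t : ℝ≥0) => rescaled K x (fun t => c * t) (fun t => σ * (t : ℝ) ^ ((1 : ℝ) / 3)) t)
      atTop (fun ω' => (χ ω' : EReal)) (fun _ => P) P' :=
  result β ν hν₀ hν₁ hν₂ P K hK x _ _ (fun t ht => mul_ne_zero hσ
    (Real.rpow_pos_of_pos (by exact_mod_cast ht) _).ne') P' χ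

end Pool.Agent.Results.MP_b213bc_pr.FiniteSpeedFlows
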